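import Pool.Agent.R703.CW.Link
import Pool.Agent.TH709.GG.Main

set_option autoImplicit false

/-!
# Flag homology spheres are flag Eulerian complexes
-/

namespace Pool.Agent.R703.CW

open Pool.Agent.W907.SG Pool.Agent.W907.SM Pool.Agent.TH652.Above Pool.Agent.W397.SG
open Pool.Agent.W497.FS (cl lam lkF mem_cl mem_lkF Eul)
open Pool.Agent.TH709.GG (FlagEul Cls IsGam cls_total)

open Classical in
theorem KK_triv_dim {V : Type} [Fintype V] [LinearOrder V] (G : SimpleGraph V) (i : ℕ) :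
    Module.finrank ℝ (KK G (fun _ => (- LinearMap.id : ℝ →ₗ[ℝ] ℝ)) Set.univ ∅ i) =
      (Finset.univ.filter (fun T : Finset V => G.IsClique (T : Set V) ∧ T.card = i)).card := by
  have e : KK G (fun _ => (- LinearMap.id : ℝ →ₗ[ℝ] ℝ)) Set.univ ∅ i ≃ₗ[ℝ]
      ({T : Finset V // G.IsClique (T : Set V) ∧ T.card = i} → ℝ) :=
    { toFun := fun c T => c.1 T.1
      map_add' := fun _ _ => rfl
      map_smul' := fun _ _ => rfl
      invFun := fun g => ⟨fun T => if h : G.IsClique (T : Set V) ∧ T.card = i then g ⟨T, h⟩ else 0,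
        mem_KK.2 ⟨fun T hT => dif_neg fun h => hT ⟨h.1, Set.subset_univ _, h.2⟩,
          fun T t _ => by simp⟩⟩
      left_inv := by
        intro c
        apply Subtype.ext
        funext T
        by_cases h : G.IsClique (T : Set V) ∧ T.card = i
        · exact dif_pos h
        · refine (dif_neg h).trans ?_
          exact (c.2.1 T fun h2 => h ⟨h2.1, h2.2.2⟩).symm
      right_inv := by
        intro g
        funext T
        exact dif_pos T.2 }
  rw [LinearEquiv.finrank_eq e, Module.finrank_fintype_fun_eq_card, Fintype.card_subtype]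

/-- the Euler characteristic -/
theorem euler_hsph {V : Type} [Fintype V] [LinearOrder V] {G : SimpleGraph V} {n : ℕ}
    (hS : HSph n G) : ∑ T ∈ cl G Finset.univ, (-1 : ℤ) ^ T.card = (-1) ^ n := by
  classical
  obtain ⟨S, -, -, hSn⟩ := exists_facet hS ∅ (by simp)
  have hn : n ≤ Fintype.card V := hSn ▸ Finset.card_le_univ S
  have h1 := euler G (fun _ => (- LinearMap.id : ℝ →ₗ[ℝ] ℝ)) Set.univ ∅ (Fintype.card V)
  have hBB : Module.finrank ℝ (BB G (fun _ => (- LinearMap.id : ℝ →ₗ[ℝ] ℝ)) Set.univ ∅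
      (Fintype.card V)) = 0 := by
    unfold BB
    rw [KK_big G _ Set.univ ∅ (by omega : Fintype.card V < Fintype.card V + 1),
      Submodule.map_bot, finrank_bot]
  rw [hBB, Nat.cast_zero, mul_zero, sub_zero] at h1
  have hlk : lk G (∅ : Finset V) = Set.univ := by
    ext v
    simp [lk]
  have h2 : ∑ i ∈ Finset.range (Fintype.card V + 1), (-1 : ℤ) ^ i *
      (beta G (fun _ => (- LinearMap.id : ℝ →ₗ[ℝ] ℝ)) Set.univ ∅ i : ℤ) = (-1) ^ n := by
    rw [Finset.sum_eq_single n]
    · have h3 := hS ∅ (by simp) n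
      rw [hlk, if_pos (by simp)] at h3
      rw [h3]
      simp
    · intro i _ hi
      have h3 := hS ∅ (by simp) i
      rw [hlk, if_neg (by simpa using hi)] at h3
      rw [h3]
      simp
    · intro h
      exact absurd (Finset.mem_range.2 (by omega)) h
  rw [h2] at h1
  rw [h1]
  have h4 : ∀ T ∈ cl G Finset.univ, T.card ∈ Finset.range (Fintype.card V + 1) := fun T _ => by
    rw [Finset.mem_range]
    have := Finset.card_le_univ T
    omega
  rw [← Finset.sum_fiberwise_of_maps_to h4]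
  refine Finset.sum_congr rfl fun i _ => ?_
  rw [KK_triv_dim]
  have h5 : (cl G Finset.univ).filter (fun T => T.card = i) =
      Finset.univ.filter (fun T : Finset V => G.IsClique (T : Set V) ∧ T.card = i) := by
    ext T
    simp only [Finset.mem_filter, Finset.mem_univ, true_and]
    rw [mem_cl]
    constructor
    · rintro ⟨⟨-, h⟩, h'⟩
      exact ⟨fun x hx y hy hxy => h x hx y hy hxy, h'⟩
    · rintro ⟨h, h'⟩
      exact ⟨⟨Finset.subset_univ T, fun x hx y hy hxy => h hx hy hxy⟩, h'⟩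
  rw [Finset.sum_congr rfl (fun T hT => by rw [(Finset.mem_filter.1 hT).2] :
    ∀ T ∈ (cl G Finset.univ).filter (fun T => T.card = i), (-1 : ℤ) ^ T.card = (-1) ^ i),
    Finset.sum_const, nsmul_eq_mul, mul_comm]
  congr 2
  rw [h5]

variable {V : Type} [Fintype V] [LinearOrder V] {G : SimpleGraph V}

/-- sums over the cliques of the link -/
theorem sum_link {M : Type} [AddCommMonoid M] (T : Finset V) [Fintype ↥(lk G T)] (f : ℕ → M) :
    ∑ S ∈ cl (G.induce (lk G T)) Finset.univ, f S.card =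
      ∑ S ∈ cl G (lkF G Finset.univ T), f S.card := by
  classical
  refine Finset.sum_bij (fun S _ => S.map (Function.Embedding.subtype _)) ?_ ?_ ?_ ?_
  · intro S hS
    have hS' := (mem_cl.1 hS).2
    refine mem_cl.2 ⟨fun x hx => ?_, fun x hx y hy hxy => ?_⟩
    · obtain ⟨a, -, rfl⟩ := Finset.mem_map.1 hx
      exact mem_lkF.2 ⟨Finset.mem_univ _, fun y hy => (a.2 y hy).symm⟩
    · obtain ⟨a, ha, rfl⟩ := Finset.mem_map.1 hx
      obtain ⟨b, hb, rfl⟩ := Finset.mem_map.1 hy
      exact hS' a ha b hb fun h => hxy (congrArg Subtype.val h)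
  · intro S _ S' _ h
    exact Finset.map_injective _ h
  · intro σ hσ
    obtain ⟨h1, h2⟩ := mem_cl.1 hσ
    have h3 : ∀ x ∈ σ, x ∈ lk G T := fun x hx u hu => ((mem_lkF.1 (h1 hx)).2 u hu).symm
    refine ⟨σ.subtype (fun x => x ∈ lk G T), mem_cl.2 ⟨Finset.subset_univ _, ?_⟩, ?_⟩
    · intro a ha b hb hab
      rw [Finset.mem_subtype] at ha hb
      exact h2 a ha b hb fun h => hab (Subtype.ext h)
    · rw [Finset.subtype_map]
      exact Finset.filter_true_of_mem h3
  · intro S _
    rw [Finset.card_map]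

theorem flagEul_of_hsph {n : ℕ} (hS : HSph n G) : FlagEul G n Finset.univ := by
  classical
  have hcl : ∀ σ : Finset V, σ ∈ cl G Finset.univ ↔ G.IsClique (σ : Set V) := by
    intro σ
    rw [mem_cl]
    constructor
    · rintro ⟨-, h⟩ x hx y hy hxy
      exact h x hx y hy hxy
    · intro h
      exact ⟨Finset.subset_univ σ, fun x hx y hy hxy => h hx hy hxy⟩
  refine ⟨fun σ hσ => ?_, fun σ hσ => card_le_of_hsph hS σ ((hcl σ).1 hσ), fun σ hσ => ?_⟩
  · obtain ⟨τ, h1, h2, h3⟩ := exists_facet hS σ ((hcl σ).1 hσ)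
    exact ⟨τ, (hcl τ).2 h2, h1, h3⟩
  · have hfin : Fintype ↥(lk G σ) := Fintype.ofFinite _
    have h1 := euler_hsph (hsph_link hS σ ((hcl σ).1 hσ))
    have h2 := sum_link (G := G) σ (fun n => (-1 : ℤ) ^ n)
    have h3 := Pool.Agent.W497.FS.sum_sup hσ (fun n => (-1 : ℤ) ^ n)
    have h4 := card_le_of_hsph hS σ ((hcl σ).1 hσ)
    obtain ⟨k, hk⟩ := Nat.exists_eq_add_of_le h4
    have h5 : ∑ ρ ∈ cl G (lkF G Finset.univ σ), (-1 : ℤ) ^ (ρ.card + σ.card) = (-1) ^ n := by
      have h6 : ∀ ρ ∈ cl G (lkF G Finset.univ σ), (-1 : ℤ) ^ (ρ.card + σ.card) =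
          (-1) ^ ρ.card * (-1) ^ σ.card := fun ρ _ => pow_add _ _ _
      rw [Finset.sum_congr rfl h6, ← Finset.sum_mul, ← h2, h1, hk, Nat.add_sub_cancel_left,
        ← pow_add, add_comm]
    rw [← h5, ← h3]
    refine Finset.sum_congr ?_ fun _ _ => rfl
    ext τ
    simp only [Finset.mem_filter]

/-- the Charney–Davis inequality for the class `Cls` -/
theorem cd_of_cls {α : Type} [DecidableEq α] {H : SimpleGraph α} {W : Finset α} {l : ℕ}
    (h : Cls (2 * l) α H W) : 0 ≤ (-1) ^ l * lam H W := by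
  classical
  obtain ⟨h1, h2⟩ := cls_total h
  have h0 : (∅ : Finset α) ∈ cl H W := Pool.Agent.W497.FS.empty_mem_cl
  have hg : ∀ σ : Finset α, ∃ g : ℕ → ℤ, σ ∈ cl H W → IsGam H (2 * l - σ.card) (lkF H W σ) g := by
    intro σ
    by_cases hσ : σ ∈ cl H W
    · obtain ⟨g, hg⟩ := (h1 σ hσ).2
      exact ⟨g, fun _ => hg⟩
    · exact ⟨0, fun h => absurd h hσ⟩
  choose g hg using hg
  have h3 := h2 g hg ∅ ∅ (Finset.disjoint_empty_left _) (by simpa using h0) l
  simp only [Finset.powerset_empty, Finset.sum_singleton, Finset.card_empty, pow_zero, one_mul,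
    Finset.union_empty] at h3
  have h4 := (hg ∅ h0).2
  have hlk : lkF H W ∅ = W := by
    ext x
    rw [mem_lkF]
    simp
  rw [hlk, Finset.card_empty, Nat.sub_zero] at h4
  have h5 := congrArg (fun p => Polynomial.eval₂ (Int.castRingHom ℚ) (-1) p) h4
  simp only [Polynomial.eval₂_finsetSum, Polynomial.eval₂_mul, Polynomial.eval₂_pow,
    Polynomial.eval₂_C, Polynomial.eval₂_X, Polynomial.eval₂_sub, Polynomial.eval₂_add,
    Polynomial.eval₂_one] at h5
  have h6 : ∑ i ∈ Finset.range (2 * l / 2 + 1), ((Int.castRingHom ℚ) (g ∅ i)) * (-1) ^ i *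
      (1 + -1 : ℚ) ^ (2 * l - 2 * i) = (g ∅ l : ℚ) * (-1) ^ l := by
    rw [Finset.sum_eq_single l]
    · simp
    · intro i hi hil
      rw [Finset.mem_range] at hi
      have : 2 * l - 2 * i ≠ 0 := by omega
      rw [add_neg_cancel, zero_pow this, mul_zero]
    · intro h
      exact absurd (Finset.mem_range.2 (by omega)) h
  rw [h6] at h5
  have h7 : lam H W * 4 ^ l = ∑ j ∈ Finset.range (2 * l + 1),
      ((Int.castRingHom ℚ) (((((cl H W).filter (fun σ => σ.card = j)).card : ℕ) : ℤ))) *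
        (-1) ^ j * (1 - -1) ^ (2 * l - j) := by
    rw [lam, Pool.Agent.W497.FS.fe]
    have h8 : ∀ σ ∈ cl H W, σ.card ∈ Finset.range (2 * l + 1) := fun σ hσ => by
      rw [Finset.mem_range]
      have := (h1 σ hσ).1
      omega
    rw [← Finset.sum_fiberwise_of_maps_to h8, Finset.sum_mul]
    refine Finset.sum_congr rfl fun j hj => ?_
    rw [Finset.mem_range] at hj
    rw [Finset.sum_congr rfl (fun T hT => by rw [(Finset.mem_filter.1 hT).2] :
      ∀ T ∈ (cl H W).filter (fun T => T.card = j), (-1 / 2 : ℚ) ^ T.card = (-1 / 2) ^ j),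
      Finset.sum_const, nsmul_eq_mul]
    have h9 : (4 : ℚ) ^ l = 2 ^ j * 2 ^ (2 * l - j) := by
      rw [← pow_add]
      have : (4 : ℚ) = 2 ^ 2 := by norm_num
      rw [this, ← pow_mul]
      congr 1
      omega
    rw [h9]
    have h10 : (-1 / 2 : ℚ) ^ j * 2 ^ j = (-1) ^ j := by
      rw [← mul_pow]
      norm_num
    have h11 : (1 - -1 : ℚ) = 2 := by norm_num
    rw [h11]
    simp only [eq_intCast, Int.cast_natCast]
    rw [← h10]
    ring
  rw [h5] at h7
  have h8 : (-1 : ℚ) ^ l * lam H W = g ∅ l / 4 ^ l := by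
    have h9 : (4 : ℚ) ^ l ≠ 0 := by positivity
    field_simp
    rw [mul_assoc, h7]
    have h10 : (-1 : ℚ) ^ l * (-1) ^ l = 1 := by
      rw [← mul_pow]
      norm_num
    linear_combination (g ∅ l : ℚ) * h10
  rw [h8]
  have h9 : (0 : ℚ) ≤ g ∅ l := by exact_mod_cast h3
  positivity

end Pool.Agent.R703.CW
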