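import Pool.Agent.R703.CW.Wt

set_option autoImplicit false

/-!
# Monotonicity in the weights if the heavy edges of each face are disjoint
-/

namespace Pool.Agent.R703.CW

open Pool.Agent.W497.FS Y365.FS

section

variable {β : Type*} [DecidableEq β]

theorem Dh_zero (c : Finset β → ℚ) {T' : Finset β} {v : β} (hvT' : v ∉ T')
    (hl : ∀ u ∈ T', c {v, u} = 0) : Dh c (insert v T') = 0 := by
  rw [Dh_insert c hvT']
  refine Finset.sum_eq_zero fun U hU => ?_
  rw [Finset.mem_powerset] at hU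
  rw [hp_insert c (fun h => hvT' (hU h)), Finset.prod_eq_one (fun u hu => by
    rw [hl u (hU hu), sub_zero]), mul_one, sub_self, mul_zero]

theorem Dh_key (c : Finset β → ℚ) {T'' : Finset β} {u v : β} (hvT' : v ∉ insert u T'')
    (huT'' : u ∉ T'') (hz1 : ∀ z ∈ T'', c {v, z} = 0) (hz2 : ∀ z ∈ T'', c {u, z} = 0) :
    Dh c (insert v (insert u T'')) = -c {v, u} * Dh c T'' := by
  have hvu : v ≠ u := fun h => hvT' (h ▸ Finset.mem_insert_self u T'')
  have hvT'' : v ∉ T'' := fun h => hvT' (Finset.mem_insert_of_mem h)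
  rw [Dh_insert c hvT', Finset.sum_powerset_insert huT'', ← Finset.sum_add_distrib, Dh,
    Finset.mul_sum]
  refine Finset.sum_congr rfl fun U hU => ?_
  rw [Finset.mem_powerset] at hU
  have h1 : u ∉ U := fun h => huT'' (hU h)
  have h2 : v ∉ U := fun h => hvT'' (hU h)
  have h3 := Finset.card_le_card hU
  have h4 : v ∉ insert u U := fun h => by
    rcases Finset.mem_insert.1 h with h | h
    · exact hvu h
    · exact h2 h
  rw [hp_insert c h4, hp_insert c h1, hp_insert c h2, Finset.prod_insert h1,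
    Finset.prod_eq_one (fun z hz => by rw [hz1 z (hU hz), sub_zero]),
    Finset.prod_eq_one (fun z hz => by rw [hz2 z (hU hz), sub_zero]),
    Finset.card_insert_of_notMem huT'', Finset.card_insert_of_notMem h1]
  have e2 : T''.card + 1 - (U.card + 1) = T''.card - U.card := by omega
  rw [e2]
  ring

theorem Dh_mono (c c' : Finset β → ℚ) (hc : ∀ e, 0 ≤ c e) (hcc : ∀ e, c e ≤ c' e) :
    ∀ (k : ℕ) (T : Finset β), T.card = k →
    (∀ u ∈ T, ∀ v ∈ T, ∀ z ∈ T, u ≠ v → u ≠ z → v ≠ z → c' {u, v} = 0 ∨ c' {u, z} = 0) →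
    ∀ j, T.card = 2 * j → (-1) ^ j * Dh c T ≤ (-1) ^ j * Dh c' T := by
  have hc' : ∀ e, 0 ≤ c' e := fun e => (hc e).trans (hcc e)
  have hz : ∀ e, c' e = 0 → c e = 0 := fun e he => le_antisymm (he ▸ hcc e) (hc e)
  intro k
  induction k using Nat.strong_induction_on with
  | _ k ih =>
    intro T hT hm j hj
    rcases T.eq_empty_or_nonempty with rfl | ⟨v, hv⟩
    · have h0 : (∅ : Finset β).powersetCard 2 = ∅ := by
        rw [Finset.powersetCard_eq_empty]; simp
      simp [Dh, hp, h0]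
    obtain ⟨T', hvT', rfl⟩ : ∃ T', v ∉ T' ∧ insert v T' = T :=
      ⟨T.erase v, Finset.notMem_erase v T, Finset.insert_erase hv⟩
    by_cases hl : ∀ u ∈ T', c' {v, u} = 0
    · rw [Dh_zero c' hvT' hl, Dh_zero c hvT' fun u hu => hz _ (hl u hu)]
    · push Not at hl
      obtain ⟨u, hu, hcu⟩ := hl
      obtain ⟨T'', huT'', rfl⟩ : ∃ T'', u ∉ T'' ∧ insert u T'' = T' :=
        ⟨T'.erase u, Finset.notMem_erase u T', Finset.insert_erase hu⟩
      have hvu : v ≠ u := fun h => hvT' (h ▸ Finset.mem_insert_self u T'')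
      have hvT'' : v ∉ T'' := fun h => hvT' (Finset.mem_insert_of_mem h)
      have hz1 : ∀ z ∈ T'', c' {v, z} = 0 := by
        intro z hz
        have hzv : v ≠ z := fun h => hvT'' (h ▸ hz)
        have hzu : u ≠ z := fun h => huT'' (h ▸ hz)
        rcases hm v (Finset.mem_insert_self _ _) u
          (Finset.mem_insert_of_mem (Finset.mem_insert_self _ _)) z
          (Finset.mem_insert_of_mem (Finset.mem_insert_of_mem hz)) hvu hzv hzu with h | h
        · exact absurd h hcu
        · exact h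
      have hz2 : ∀ z ∈ T'', c' {u, z} = 0 := by
        intro z hz
        have hzv : v ≠ z := fun h => hvT'' (h ▸ hz)
        have hzu : u ≠ z := fun h => huT'' (h ▸ hz)
        rcases hm u (Finset.mem_insert_of_mem (Finset.mem_insert_self _ _)) v
          (Finset.mem_insert_self _ _) z
          (Finset.mem_insert_of_mem (Finset.mem_insert_of_mem hz)) hvu.symm hzu hzv with h | h
        · rw [Finset.pair_comm] at h
          exact absurd h hcu
        · exact h
      have hc1 : (insert v (insert u T'')).card = T''.card + 2 := by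
        rw [Finset.card_insert_of_notMem hvT', Finset.card_insert_of_notMem huT'']
      obtain ⟨j, rfl⟩ : ∃ j', j = j' + 1 := ⟨j - 1, by omega⟩
      have hm2 : ∀ a ∈ T'', ∀ b ∈ T'', ∀ z ∈ T'', a ≠ b → a ≠ z → b ≠ z →
          c' {a, b} = 0 ∨ c' {a, z} = 0 := fun a ha b hb z hz => hm a
        (Finset.mem_insert_of_mem (Finset.mem_insert_of_mem ha)) b
        (Finset.mem_insert_of_mem (Finset.mem_insert_of_mem hb)) z
        (Finset.mem_insert_of_mem (Finset.mem_insert_of_mem hz))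
      have i1 := ih T''.card (by omega) T'' rfl hm2 j (by omega)
      have i2 := (Dh_sign c hc T''.card T'' rfl (fun a ha b hb z hz' h1 h2 h3 =>
        (hm2 a ha b hb z hz' h1 h2 h3).imp (hz _) (hz _))).2 j (by omega)
      rw [Dh_key c' hvT' huT'' hz1 hz2, Dh_key c hvT' huT'' (fun z hz' => hz _ (hz1 z hz'))
        (fun z hz' => hz _ (hz2 z hz'))]
      have h1 : ∀ a x : ℚ, (-1 : ℚ) ^ (j + 1) * (-a * x) = a * ((-1) ^ j * x) := by
        intro a x; rw [pow_succ]; ring
      rw [h1, h1]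
      exact mul_le_mul (hcc _) i1 i2 (hc' _)

end

variable {α : Type} [DecidableEq α] {H : SimpleGraph α}

/-- **monotonicity in the weights** -/
theorem mono (n : ℕ) (W : Finset α) (hle : ∀ T ∈ cl H W, T.card ≤ 2 * n)
    (m m' : Finset α → ℕ) (hm : ∀ e, 2 ≤ m e) (hmm : ∀ e, m e ≤ m' e)
    (hmat : ∀ T ∈ cl H W, ∀ u ∈ T, ∀ v ∈ T, ∀ z ∈ T, u ≠ v → u ≠ z → v ≠ z →
      m' {u, v} = 2 ∨ m' {u, z} = 2)
    (hCD : ∀ T ∈ cl H W, T.Nonempty → Heavy m' T → ∀ j l, T.card = 2 * j → j + l = n →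
      0 ≤ (-1) ^ l * lam H (lkF H W T)) :
    (-1) ^ n * ∑ σ ∈ cl H W, (-1) ^ σ.card / ordM m σ ≤
      (-1) ^ n * ∑ σ ∈ cl H W, (-1) ^ σ.card / ordM m' σ := by
  have hm' : ∀ e, 2 ≤ m' e := fun e => (hm e).trans (hmm e)
  have hc : ∀ e, 0 ≤ (fun e => 1 - 2 / (m e : ℚ)) e := by
    intro e
    have h1 : (2 : ℚ) ≤ m e := by exact_mod_cast hm e
    have h2 : 2 / (m e : ℚ) ≤ 1 := by rw [div_le_one (by linarith)]; exact h1
    dsimp only
    linarith
  have hcc : ∀ e, (fun e => 1 - 2 / (m e : ℚ)) e ≤ (fun e => 1 - 2 / (m' e : ℚ)) e := by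
    intro e
    have h1 : (2 : ℚ) ≤ m e := by exact_mod_cast hm e
    have h2 : (m e : ℚ) ≤ m' e := by exact_mod_cast hmm e
    have h3 : 2 / (m' e : ℚ) ≤ 2 / m e := by gcongr
    dsimp only
    linarith
  have hmatm : ∀ T ∈ cl H W, ∀ u ∈ T, ∀ v ∈ T, ∀ z ∈ T, u ≠ v → u ≠ z → v ≠ z →
      m {u, v} = 2 ∨ m {u, z} = 2 := by
    intro T hT u hu v hv z hz h1 h2 h3
    rcases hmat T hT u hu v hv z hz h1 h2 h3 with h | h
    · left
      have e1 := hm {u, v}
      have e2 := hmm {u, v}
      omega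
    · right
      have e1 := hm {u, z}
      have e2 := hmm {u, z}
      omega
  refine compare n W (ordM m) (ordM m') hle ?_ ?_ ?_
  · intro T hT ho
    rw [(goodOrders_ordM m hm hmatm T hT).1 ho, (goodOrders_ordM m' hm' hmat T hT).1 ho]
  · intro T hT j hj
    rw [bN_ordM m hm, bN_ordM m' hm']
    have h1 := Dh_mono _ _ hc hcc T.card T rfl (fun u hu v hv z hz h1 h2 h3 => by
      rcases hmat T hT u hu v hv z hz h1 h2 h3 with h | h
      · left; rw [h]; norm_num
      · right; rw [h]; norm_num) j hj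
    have h2 : (0 : ℚ) ≤ (1 / 2) ^ T.card := by positivity
    have h3 : (-1 : ℚ) ^ j * ((1 / 2) ^ T.card * Dh (fun e => 1 - 2 / (m' e : ℚ)) T -
        (1 / 2) ^ T.card * Dh (fun e => 1 - 2 / (m e : ℚ)) T) =
        (1 / 2) ^ T.card * ((-1) ^ j * Dh (fun e => 1 - 2 / (m' e : ℚ)) T -
          (-1) ^ j * Dh (fun e => 1 - 2 / (m e : ℚ)) T) := by ring
    rw [h3]
    exact mul_nonneg h2 (sub_nonneg.2 h1)
  · intro T hT j l hj hl hb
    rcases T.eq_empty_or_nonempty with rfl | hne
    · have h0 : (∅ : Finset α).powersetCard 2 = ∅ := by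
        rw [Finset.powersetCard_eq_empty]; simp
      refine absurd ?_ hb
      simp [bN, ordM, h0]
    · refine hCD T hT hne ?_ j l hj hl
      by_contra hh
      rw [Heavy] at hh
      push Not at hh
      obtain ⟨a, ha, hab⟩ := hh
      refine hb ?_
      have h2 : ∀ b ∈ T.erase a, m' {a, b} = 2 := fun b hb =>
        hab b (Finset.mem_of_mem_erase hb) (Finset.ne_of_mem_erase hb)
      have h3 : ∀ b ∈ T.erase a, m {a, b} = 2 := fun b hb => by
        have e0 := h2 b hb
        have e1 := hm {a, b}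
        have e2 := hmm {a, b}
        omega
      rw [bN_ordM m hm, bN_ordM m' hm', ← Finset.insert_erase ha,
        Dh_zero _ (Finset.notMem_erase a T) (fun b hb => by rw [h3 b hb]; norm_num),
        Dh_zero _ (Finset.notMem_erase a T) (fun b hb => by rw [h2 b hb]; norm_num)]

end Pool.Agent.R703.CW
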