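import Pool.Agent.R703.CW.Eul

set_option autoImplicit false

/-!
# The weighted inequality for flag homology spheres
-/

namespace Pool.Agent.R703.CW

open Pool.Agent.W907.SG Pool.Agent.W907.SM Pool.Agent.TH652.Above Pool.Agent.R781.VS
open Pool.Agent.W497.FS (cl lam lkF mem_cl mem_lkF)
open Pool.Agent.TH709.GG (Cls)
open Y365.FS (bN ordM)

variable {V : Type} [Fintype V] [LinearOrder V] {G : SimpleGraph V}

open Classical in
/-- the weighted quantity -/
noncomputable def omegaN (G : SimpleGraph V) (N : Finset V → ℚ) : ℚ :=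
  ∑ T : Finset V, if G.IsClique (T : Set V) then (-1 : ℚ) ^ T.card / N T else 0

theorem mem_cl_univ (T : Finset V) : T ∈ cl G Finset.univ ↔ G.IsClique (T : Set V) := by
  rw [mem_cl]
  constructor
  · rintro ⟨-, h⟩ x hx y hy hxy
    exact h x hx y hy hxy
  · intro h
    exact ⟨Finset.subset_univ T, fun x hx y hy hxy => h hx hy hxy⟩

theorem omegaN_filter (G : SimpleGraph V) [DecidablePred fun T : Finset V => G.IsClique (T : Set V)]
    (N : Finset V → ℚ) :
    omegaN G N = ∑ T ∈ Finset.univ.filter (fun T : Finset V => G.IsClique (T : Set V)),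
      (-1 : ℚ) ^ T.card / N T := by
  rw [omegaN, Finset.sum_filter]
  exact Finset.sum_congr rfl fun S _ => by congr

theorem omegaN_eq (N : Finset V → ℚ) :
    omegaN G N = ∑ σ ∈ cl G Finset.univ, (-1) ^ σ.card / N σ := by
  classical
  rw [omegaN_filter]
  refine Finset.sum_congr ?_ fun _ _ => rfl
  ext T
  rw [Finset.mem_filter, mem_cl_univ]
  exact ⟨fun h => h.2, fun h => ⟨Finset.mem_univ _, h⟩⟩

theorem chiW_eq : chiW G = lam G Finset.univ := by
  classical
  rw [chi_filter, lam, Pool.Agent.W497.FS.fe]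
  refine Finset.sum_congr ?_ fun _ _ => rfl
  ext T
  rw [Finset.mem_filter, mem_cl_univ]
  exact ⟨fun h => h.2, fun h => ⟨Finset.mem_univ _, h⟩⟩

/-- the link of `T` is in one of the two classes -/
def GoodLink (G : SimpleGraph V) (d : ℕ) (T : Finset V) : Prop :=
  AR (d - T.card) (G.induce (lk G T)) ∨ Cls (d - T.card) V G (lkF G Finset.univ T)

/-- the Charney–Davis inequality for the links in the class -/
theorem cd_link {m : ℕ} (hS : HSph (2 * m) G) (T : Finset V) (hT : G.IsClique (T : Set V))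
    {j l : ℕ} (hj : T.card = 2 * j) (hl : j + l = m)
    (hL : T.card + 4 ≤ 2 * m → GoodLink G (2 * m) T) :
    0 ≤ (-1) ^ l * lam G (lkF G Finset.univ T) := by
  classical
  have hfin : Fintype ↥(lk G T) := Fintype.ofFinite _
  have h1 := hsph_link hS T hT
  have h3 : 2 * m - T.card = 2 * l := by omega
  rw [h3] at h1
  rcases Nat.lt_or_ge l 2 with hl2 | hl2
  · rw [← chiW_link T, chiW_eq]
    exact cd_of_cls (Cls.small (by omega) (flagEul_of_hsph h1))
  · rcases hL (by omega) with h2 | h2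
    · rw [h3] at h2
      rw [← chiW_link T]
      exact charney_davis_AR h1 h2
    · rw [h3] at h2
      exact cd_of_cls h2

/-- the orders of the finite Coxeter groups of the cliques -/
structure Orders (G : SimpleGraph V) (w : Finset V → ℕ) (N : Finset V → ℚ) : Prop where
  /-- the trivial group -/
  empty : N ∅ = 1
  /-- the group with two elements -/
  vertex : ∀ v, N {v} = 2
  /-- dihedral groups -/
  edge : ∀ u v, G.Adj u v → 2 ≤ w {u, v} ∧ N {u, v} = 2 * w {u, v}
  /-- products -/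
  mul : ∀ A B : Finset V, Disjoint A B → G.IsClique ((A ∪ B : Finset V) : Set V) →
    (∀ a ∈ A, ∀ b ∈ B, w {a, b} = 2) → N (A ∪ B) = N A * N B
  /-- the Charney–Davis inequality for the Coxeter complexes of irreducible groups -/
  sign : ∀ T : Finset V, G.IsClique (T : Set V) → 3 ≤ T.card →
    (∀ A ⊆ T, A.Nonempty → A ≠ T → ∃ a ∈ A, ∃ b ∈ T, b ∉ A ∧ w {a, b} ≠ 2) →
    (Odd T.card → ∑ U ∈ T.powerset, (-1 / 2) ^ (T.card - U.card) / N U = 0) ∧
    ∀ j, T.card = 2 * j → 0 ≤ (-1) ^ j * ∑ U ∈ T.powerset, (-1 / 2) ^ (T.card - U.card) / N U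

/-- **weighted and right-angled quantities** -/
theorem weighted_ge {m : ℕ} (hS : HSph (2 * m) G) (w : Finset V → ℕ) (N : Finset V → ℚ)
    (hN : Orders G w N)
    (hL : ∀ T : Finset V, G.IsClique (T : Set V) → Even T.card → Heavy w T → T.Nonempty →
      T.card + 4 ≤ 2 * m → GoodLink G (2 * m) T) :
    (-1) ^ m * chiW G ≤ (-1) ^ m * omegaN G N := by
  rw [omegaN_eq, chiW_eq]
  have hpair : ∀ e ∈ cl G Finset.univ, e.card = 2 → 2 ≤ w e ∧ N e = 2 * w e := by
    intro e he he2
    obtain ⟨u, v, huv, rfl⟩ := Finset.card_eq_two.1 he2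
    exact hN.edge u v ((mem_cl_univ _).1 he (by simp) (by simp) huv)
  refine ge_ra m Finset.univ (fun T hT => card_le_of_hsph hS T ((mem_cl_univ T).1 hT)) w
    (fun e he he2 => (hpair e he he2).1) N hN.empty (fun v _ => hN.vertex v)
    (fun e he he2 => (hpair e he he2).2)
    (fun A B hAB hAB2 h => hN.mul A B hAB ((mem_cl_univ _).1 hAB2) h)
    (fun T hT h3 hc => hN.sign T ((mem_cl_univ _).1 hT) h3 hc) ?_
  intro T hT hne hh j l hj hl
  exact cd_link hS T ((mem_cl_univ T).1 hT) hj hl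
    (fun h => hL T ((mem_cl_univ T).1 hT) ⟨j, by omega⟩ hh hne h)

/-- **monotonicity in the weights** -/
theorem weighted_mono {m : ℕ} (hS : HSph (2 * m) G) (w w' : Finset V → ℕ) (hw : ∀ e, 2 ≤ w e)
    (hww : ∀ e, w e ≤ w' e)
    (hmat : ∀ u v z, G.Adj u v → G.Adj u z → G.Adj v z → w' {u, v} = 2 ∨ w' {u, z} = 2)
    (hL : ∀ T : Finset V, G.IsClique (T : Set V) → Even T.card → Heavy w' T → T.Nonempty →
      T.card + 4 ≤ 2 * m → GoodLink G (2 * m) T) :
    (-1) ^ m * omegaN G (ordM w) ≤ (-1) ^ m * omegaN G (ordM w') := by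
  rw [omegaN_eq, omegaN_eq]
  refine mono m Finset.univ (fun T hT => card_le_of_hsph hS T ((mem_cl_univ T).1 hT)) w w' hw hww
    (fun T hT u hu v hv z hz h1 h2 h3 => ?_) ?_
  · have h4 := (mem_cl_univ T).1 hT
    exact hmat u v z (h4 hu hv h1) (h4 hu hz h2) (h4 hv hz h3)
  · intro T hT hne hh j l hj hl
    exact cd_link hS T ((mem_cl_univ T).1 hT) hj hl
      (fun h => hL T ((mem_cl_univ T).1 hT) ⟨j, by omega⟩ hh hne h)

/-- the right-angled quantity -/
theorem chi_nonneg {m : ℕ} (hS : HSph (2 * m) G) (h : AR (2 * m) G ∨ Cls (2 * m) V G Finset.univ) :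
    0 ≤ (-1) ^ m * chiW G := by
  rcases h with h | h
  · exact charney_davis_AR hS h
  · rw [chiW_eq]
    exact cd_of_cls h

end Pool.Agent.R703.CW
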