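import Pool.Agent.Y365.FS.Wt2

set_option autoImplicit false

/-!
# Comparison of the weighted Charney–Davis quantities for two systems of weights
-/

namespace Pool.Agent.R703.CW

open Pool.Agent.W497.FS Y365.FS

variable {α : Type} [DecidableEq α] {H : SimpleGraph α}

/-- comparison -/
theorem compare (m : ℕ) (W : Finset α) (N N' : Finset α → ℚ)
    (hle : ∀ T ∈ cl H W, T.card ≤ 2 * m)
    (hodd : ∀ T ∈ cl H W, Odd T.card → bN N T = bN N' T)
    (heven : ∀ T ∈ cl H W, ∀ j, T.card = 2 * j → 0 ≤ (-1) ^ j * (bN N' T - bN N T))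
    (hCD : ∀ T ∈ cl H W, ∀ j l, T.card = 2 * j → j + l = m → bN N T ≠ bN N' T →
      0 ≤ (-1) ^ l * lam H (lkF H W T)) :
    (-1) ^ m * ∑ σ ∈ cl H W, (-1) ^ σ.card / N σ ≤
      (-1) ^ m * ∑ σ ∈ cl H W, (-1) ^ σ.card / N' σ := by
  rw [← sub_nonneg, ← mul_sub, weighted_eq, weighted_eq, ← Finset.sum_sub_distrib, Finset.mul_sum]
  refine Finset.sum_nonneg fun T hT => ?_
  by_cases hb : bN N T = bN N' T
  · rw [hb, sub_self, mul_zero]
  · rcases Nat.even_or_odd T.card with ⟨j, hj⟩ | ho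
    · have h1 := hle T hT
      obtain ⟨l, hl⟩ : ∃ l, j + l = m := ⟨m - j, by omega⟩
      have h2 := heven T hT j (by omega)
      have h3 := hCD T hT j l (by omega) hl hb
      have h4 : (-1 : ℚ) ^ T.card = 1 := by rw [hj]; exact Even.neg_one_pow ⟨j, rfl⟩
      have h5 : (-1 : ℚ) ^ m * ((-1) ^ T.card * bN N' T * lam H (lkF H W T) -
          (-1) ^ T.card * bN N T * lam H (lkF H W T)) =
          ((-1) ^ j * (bN N' T - bN N T)) * ((-1) ^ l * lam H (lkF H W T)) := by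
        rw [h4, ← hl, pow_add]; ring
      rw [h5]
      exact mul_nonneg h2 h3
    · exact absurd (hodd T hT ho) hb

/-- the right-angled weights -/
theorem bN_ra (T : Finset α) (hT : T.Nonempty) : bN (fun σ : Finset α => (2 : ℚ) ^ σ.card) T = 0 := by
  rw [bN]
  have h1 : ∀ U ∈ T.powerset, (-1 / 2 : ℚ) ^ (T.card - U.card) / 2 ^ U.card =
      (1 / 2 : ℚ) ^ U.card * (-1 / 2) ^ (T.card - U.card) := by
    intro U _
    rw [one_div, inv_pow, div_eq_mul_inv, mul_comm]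
  rw [Finset.sum_congr rfl h1, Finset.sum_pow_mul_eq_add_pow]
  have h2 : (1 / 2 : ℚ) + -1 / 2 = 0 := by norm_num
  rw [h2, zero_pow (Finset.card_pos.2 hT).ne']

theorem bN_ra_empty : bN (fun σ : Finset α => (2 : ℚ) ^ σ.card) ∅ = 1 := by
  simp [bN]

theorem lam_ra (W : Finset α) :
    ∑ σ ∈ cl H W, (-1) ^ σ.card / (2 : ℚ) ^ σ.card = lam H W := by
  rw [lam, fe]
  refine Finset.sum_congr rfl fun σ _ => ?_
  rw [← div_pow]

/-- weights and orders: the vertices of a heavy face lie in edges of weight at least `3` inside the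
face -/
def Heavy (w : Finset α → ℕ) (T : Finset α) : Prop := ∀ a ∈ T, ∃ b ∈ T, b ≠ a ∧ w {a, b} ≠ 2

theorem bN_light {F : Finset (Finset α)} (hF : ∀ T ∈ F, ∀ U ⊆ T, U ∈ F) (w : Finset α → ℕ)
    (N : Finset α → ℚ) (h0 : N ∅ = 1) (h1 : ∀ v, {v} ∈ F → N {v} = 2)
    (hmul : ∀ A B, Disjoint A B → A ∪ B ∈ F → (∀ a ∈ A, ∀ b ∈ B, w {a, b} = 2) →
      N (A ∪ B) = N A * N B) (T : Finset α) (hT : T ∈ F) (hh : ¬ Heavy w T) : bN N T = 0 := by
  rw [Heavy] at hh
  push Not at hh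
  obtain ⟨a, ha, hb⟩ := hh
  have hun : {a} ∪ T.erase a = T := by
    rw [← Finset.insert_eq, Finset.insert_erase ha]
  have hd : Disjoint {a} (T.erase a) := Finset.disjoint_singleton_left.2 (Finset.notMem_erase a T)
  have h2 := bN_union hd N (fun U hU V hV => hmul U V
    (Finset.disjoint_of_subset_left hU (Finset.disjoint_of_subset_right hV hd))
    (hF T hT _ (by rw [← hun]; exact Finset.union_subset_union hU hV))
    (fun x hx y hy => by
      have hxa : x = a := Finset.mem_singleton.1 (hU hx)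
      subst hxa
      have hy' := Finset.mem_erase.1 (hV hy)
      exact hb y hy'.2 hy'.1))
  rw [hun] at h2
  rw [h2]
  have h3 : bN N {a} = 0 := by
    have e1 : ({a} : Finset α) = insert a ∅ := rfl
    rw [bN, e1, Finset.sum_powerset_insert (Finset.notMem_empty a)]
    have e2 : insert a (∅ : Finset α) = {a} := rfl
    simp only [Finset.powerset_empty, Finset.sum_singleton, e2, Finset.card_singleton,
      Finset.card_empty, h0, h1 a (hF T hT _ (Finset.singleton_subset_iff.2 ha))]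
    norm_num
  rw [h3, zero_mul]

/-- **the weighted quantity is at least the right-angled one** -/
theorem ge_ra (m : ℕ) (W : Finset α) (hle : ∀ T ∈ cl H W, T.card ≤ 2 * m)
    (w : Finset α → ℕ) (hw : ∀ e ∈ cl H W, e.card = 2 → 2 ≤ w e) (N : Finset α → ℚ) (h0 : N ∅ = 1)
    (h1 : ∀ v, {v} ∈ cl H W → N {v} = 2) (h2 : ∀ e ∈ cl H W, e.card = 2 → N e = 2 * w e)
    (hmul : ∀ A B, Disjoint A B → A ∪ B ∈ cl H W → (∀ a ∈ A, ∀ b ∈ B, w {a, b} = 2) →
      N (A ∪ B) = N A * N B)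
    (hsign : ∀ T ∈ cl H W, 3 ≤ T.card → (∀ A ⊆ T, A.Nonempty → A ≠ T → ∃ a ∈ A, ∃ b ∈ T, b ∉ A ∧
        w {a, b} ≠ 2) → (Odd T.card → bN N T = 0) ∧ ∀ j, T.card = 2 * j → 0 ≤ (-1) ^ j * bN N T)
    (hCD : ∀ T ∈ cl H W, T.Nonempty → Heavy w T → ∀ j l, T.card = 2 * j → j + l = m →
      0 ≤ (-1) ^ l * lam H (lkF H W T)) :
    (-1) ^ m * lam H W ≤ (-1) ^ m * ∑ σ ∈ cl H W, (-1) ^ σ.card / N σ := by
  have hF : ∀ T ∈ cl H W, ∀ U ⊆ T, U ∈ cl H W := fun T hT U hU => cl_of_subset hT hU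
  have hG := goodOrders_of hF w hw N h0 h1 h2 hmul hsign
  have hN0 : bN N (∅ : Finset α) = 1 := by simp [bN, h0]
  rw [← lam_ra W]
  refine compare m W (fun σ => 2 ^ σ.card) N hle ?_ ?_ ?_
  · intro T hT ho
    rw [(hG T hT).1 ho, bN_ra T (Finset.card_pos.1 ho.pos)]
  · intro T hT j hj
    rcases T.eq_empty_or_nonempty with rfl | hne
    · rw [hN0, bN_ra_empty, sub_self, mul_zero]
    · rw [bN_ra T hne, sub_zero]
      exact (hG T hT).2 j hj
  · intro T hT j l hj hl hb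
    rcases T.eq_empty_or_nonempty with rfl | hne
    · exact absurd (by rw [hN0, bN_ra_empty]) hb
    · refine hCD T hT hne ?_ j l hj hl
      by_contra hh
      exact hb (by rw [bN_ra T hne, bN_light hF w N h0 h1 hmul T hT hh])

end Pool.Agent.R703.CW
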